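import Pool.Agent.helper40.FI3.PortsLA3
import Pool.Agent.helper43.FI3.LFE3
import Pool.Agent.helper47.FI3.LRP3
import Pool.Agent.helper89.FI3.LFI3
import Pool.Agent.helper25.FI3.LKM3
import Pool.Agent.helper24.FI3.LCA3
import Pool.Agent.helper28.FI3.LCB3
import Pool.Agent.helper20.FI3.LAF3

/-!
# Project fi3 (MP_baa4d7_al), block LA3: assembly. The output is `aLA_LAF3 : LAF3_stmt`
-/

set_option autoImplicit false

namespace Pool.Agent.FI3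

theorem aLA_LFE3 : LFE3_stmt := LFE3
theorem aLA_LRP3 : LRP3_stmt := LRP3 aLA_LFE3
theorem aLA_LFI3 : LFI3_stmt := LFI3
theorem aLA_LKM3 : LKM3_stmt := LKM3 aLA_LPC3 aLA_LTO3
theorem aLA_LCA3 : LCA3_stmt := LCA3 aLA_LKM3 aLA_LRP3 aLA_LFI3
theorem aLA_LCB3 : LCB3_stmt := LCB3 aLA_LKM3 aLA_LRP3 aLA_LFI3 aLA_LFR3
theorem aLA_LAF3 : LAF3_stmt := LAF3 aLA_LEP3 aLA_LGG3 aLA_LCA3 aLA_LCB3

end Pool.Agent.FI3
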