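import Pool.Agent.helper40.FI3.SpecLA3

set_option autoImplicit false

open Finset

namespace Pool.Agent.FI3

open Pool.Agent.FI Pool.Agent.GR

open Pool.Agent.GR

open Classical in
theorem LGK3_char (p : ℕ) (D : Type) [CommGroup D] [Fintype D] [Fintype (D →* ℂˣ)]
    (X : Type) [Fintype X] (Z Y : Subgroup D) [Fintype Z] (I : Subgroup (MulAut D)) (g : X → D → ℂ) (l₀ : D →* ℂˣ)
    (hG : LG3 p Z Y I g) (χ : X) (a : D) :
    ∑ z : Z, lv l₀ (z : D)⁻¹ * g χ ((z : D) * a) = if χ ∈ lX Z l₀ g then (Nat.card Z : ℂ) * g χ a else 0 := by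
  split_ifs with h
  · rw [mem_lX] at h
    have h1 : ∀ z : Z, lv l₀ (z : D)⁻¹ * g χ ((z : D) * a) = g χ a := by
      intro z
      rw [h z z.2, lv_inv, inv_mul_cancel_left₀ (lv_ne _ _)]
    rw [Finset.sum_congr rfl fun z _ => h1 z, Finset.sum_const, Finset.card_univ, nsmul_eq_mul,
      Nat.card_eq_fintype_card]
  · obtain ⟨l₁, hl₁⟩ := hG.gz χ
    have hne : (l₁ * l₀⁻¹).comp Z.subtype ≠ 1 := by
      intro h1
      apply h
      rw [mem_lX]
      intro z hz u
      have h2 : lv (l₁ * l₀⁻¹) z = 1 := by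
        have h3 := congrArg (fun f : Z →* ℂˣ => ((f ⟨z, hz⟩ : ℂˣ) : ℂ)) h1
        exact h3
      rw [lv_hmul, lv_hinv] at h2
      have h4 : lv l₁ z = lv l₀ z := by
        have := congrArg (fun x => x * lv l₀ z) h2
        simpa [mul_assoc, inv_mul_cancel₀ (lv_ne l₀ z)] using this
      rw [hl₁ z hz u, h4]
    have h5 := sum_lv ((l₁ * l₀⁻¹).comp Z.subtype)
    rw [if_neg hne] at h5
    have h6 : ∀ z : Z, lv l₀ (z : D)⁻¹ * g χ ((z : D) * a) = lv ((l₁ * l₀⁻¹).comp Z.subtype) z * g χ a := by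
      intro z
      have h7 : lv ((l₁ * l₀⁻¹).comp Z.subtype) z = lv (l₁ * l₀⁻¹) (z : D) := rfl
      rw [hl₁ z z.2, h7, lv_hmul, lv_hinv, lv_inv]
      ring
    rw [Finset.sum_congr rfl fun z _ => h6 z, ← Finset.sum_mul, h5, zero_mul]

open Classical in
theorem LGK3_orb (p : ℕ) (D : Type) [CommGroup D] [Fintype D]
    (X : Type) [Fintype X] (Z Y : Subgroup D) (I : Subgroup (MulAut D)) [Fintype I] (g : X → D → ℂ)
    (hG : LG3 p Z Y I g) (u : D) (hu : u ∉ Y) (b : D) :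
    ∑ χ, g χ b * (starRingEnd ℂ) (g χ u) = (Nat.card D : ℂ) * ∑ t : I, if b = (t : MulAut D) u then 1 else 0 := by
  by_cases h : ∀ t ∈ I, t u ≠ b
  · rw [hG.o0 u b hu h, Finset.sum_eq_zero, mul_zero]
    intro t _
    exact if_neg fun h1 => h t t.2 h1.symm
  · push Not at h
    obtain ⟨t, ht, rfl⟩ := h
    rw [hG.o1 u hu t ht, Finset.sum_eq_single (⟨t, ht⟩ : I)]
    · simp
    · intro s _ hs
      apply if_neg
      intro h1
      apply hs
      apply Subtype.ext
      have h2 : ((s : MulAut D)⁻¹ * t) u = u := by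
        rw [MulAut.mul_apply, h1]
        exact (s : MulAut D).symm_apply_apply u
      have h3 := hG.fr _ (I.mul_mem (I.inv_mem s.2) ht) u hu h2
      exact (inv_mul_eq_one.1 h3)
    · intro h1
      exact absurd (Finset.mem_univ _) h1

theorem LGK3 : LGK3_stmt := by
  classical
  intro p D _ _ _ X _ Z Y _ I _ g l₀ hG u hu F
  have hZ : (Nat.card Z : ℂ) ≠ 0 := by
    have : 0 < Nat.card Z := Nat.card_pos
    exact_mod_cast this.ne'
  have key : ∀ a : D, ∑ χ ∈ lX Z l₀ g, g χ a * (starRingEnd ℂ) (g χ u) =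
      (Nat.card D : ℂ) / (Nat.card Z : ℂ) * ∑ z : Z, ∑ t : I, lv l₀ (z : D)⁻¹ * (if a = (z : D)⁻¹ * (t : MulAut D) u then 1 else 0) := by
    intro a
    have h1 : (Nat.card Z : ℂ) * ∑ χ ∈ lX Z l₀ g, g χ a * (starRingEnd ℂ) (g χ u) =
        ∑ z : Z, lv l₀ (z : D)⁻¹ * ∑ χ, g χ ((z : D) * a) * (starRingEnd ℂ) (g χ u) := by
      simp only [Finset.mul_sum]
      rw [Finset.sum_comm]
      have h2 : ∀ χ : X, ∑ z : Z, lv l₀ (z : D)⁻¹ * (g χ ((z : D) * a) * (starRingEnd ℂ) (g χ u)) =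
          if χ ∈ lX Z l₀ g then (Nat.card Z : ℂ) * (g χ a * (starRingEnd ℂ) (g χ u)) else 0 := by
        intro χ
        have h3 := LGK3_char p D X Z Y I g l₀ hG χ a
        simp only [← mul_assoc]
        rw [← Finset.sum_mul, h3]
        split_ifs <;> ring
      rw [Finset.sum_congr rfl fun χ _ => h2 χ, Finset.sum_ite_mem, Finset.univ_inter]
    have h4 : ∀ z : Z, ∑ χ, g χ ((z : D) * a) * (starRingEnd ℂ) (g χ u) =
        (Nat.card D : ℂ) * ∑ t : I, if a = (z : D)⁻¹ * (t : MulAut D) u then 1 else 0 := by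
      intro z
      rw [LGK3_orb p D X Z Y I g hG u hu]
      congr 1
      refine Finset.sum_congr rfl fun t _ => ?_
      simp only [eq_inv_mul_iff_mul_eq]
    simp only [h4] at h1
    rw [div_mul_eq_mul_div, eq_div_iff hZ, mul_comm, h1]
    simp only [Finset.mul_sum]
    refine Finset.sum_congr rfl fun z _ => Finset.sum_congr rfl fun t _ => ?_
    ring
  simp only [key, Finset.mul_sum]
  rw [Finset.sum_comm]
  refine Finset.sum_congr rfl fun z _ => ?_
  rw [Finset.sum_comm]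
  refine Finset.sum_congr rfl fun t _ => ?_
  rw [Finset.sum_eq_single ((z : D)⁻¹ * (t : MulAut D) u)]
  · simp only [if_true]
    ring
  · intro b _ hb
    rw [if_neg hb]
    ring
  · intro h1
    exact absurd (Finset.mem_univ _) h1

end Pool.Agent.FI3
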