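import Pool.Agent.helper40.FI3.SpecLA3

set_option autoImplicit false

namespace Pool.Agent.FI3

open Pool.Agent.FI Pool.Agent.GR

open Finset

open Pool.Agent.GR

theorem LIA3 (hLSM3 : LSM3_stmt) (hLCO : LCO_stmt) : LIA3_stmt := by
  classical
  intro p M D _ _ X _ Z Y I β d n δ ε hL hS χ l l' hll
  obtain ⟨F, E, hF, hint⟩ := hLSM3 p M D X Z Y I β d n δ ε hL hS χ
  obtain ⟨hc1, -, -⟩ := hLCO p M D F hL.set hL.pg hF
  obtain ⟨m, hm⟩ := hc1 l
  obtain ⟨m', hm'⟩ := hc1 l'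
  have hD : (Nat.card D : ℂ) ≠ 0 := by exact_mod_cast Nat.card_pos.ne'
  have hI : ¬ InM M ((Nat.card I : ℂ)) := fun h => hL.cop ((InM.natCast hL.set _).1 h)
  have hI0 : (Nat.card I : ℂ) ≠ 0 := fun h => hI (h ▸ InM.zero hL.set)
  have hw : ∀ u ∈ Y, lv l u⁻¹ - lv l' u⁻¹ = 0 := fun u hu => by
    rw [hll _ (Y.inv_mem hu), sub_self]
  set ρ : D → ℂ := fun u => if u ∈ Y then 0 else
    (lg Y ε d χ u - F u / (Nat.card I : ℂ) ^ E) / (Nat.card D : ℂ) with hρ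
  have hρi : ∀ u, IsIntegral ℤ (ρ u) := by
    intro u
    by_cases hu : u ∈ Y
    · simp only [hρ, if_pos hu]
      exact isIntegral_zero
    · simp only [hρ, if_neg hu]
      exact hint u hu
  have key : ∀ u, lg Y ε d χ u * (lv l u⁻¹ - lv l' u⁻¹) =
      (F u * lv l u⁻¹ - F u * lv l' u⁻¹) / (Nat.card I : ℂ) ^ E +
        (Nat.card D : ℂ) * (ρ u * (lv l u⁻¹ - lv l' u⁻¹)) := by
    intro u
    by_cases hu : u ∈ Y
    · have h0 := hw u hu
      have h1 : F u * lv l u⁻¹ - F u * lv l' u⁻¹ = F u * (lv l u⁻¹ - lv l' u⁻¹) := by ring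
      rw [h1, h0]
      simp
    · simp only [hρ, if_neg hu]
      field_simp
      ring
  have hsum : (∑ u, lg Y ε d χ u * (lv l u⁻¹ - lv l' u⁻¹)) / (Nat.card D : ℂ) =
      ((m - m' : ℤ) : ℂ) * ((Nat.card I : ℂ)⁻¹) ^ E + ∑ u, ρ u * (lv l u⁻¹ - lv l' u⁻¹) := by
    rw [Finset.sum_congr rfl fun u _ => key u, Finset.sum_add_distrib, ← Finset.sum_div,
      Finset.sum_sub_distrib, hm, hm', ← Finset.mul_sum, inv_pow]
    push_cast
    field_simp
  rw [hsum]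
  refine IntAt.add hL.set (IntAt.mul hL.set (IntAt.intCast hL.set _) (IntAt.pow hL.set
    (IntAt.inv hL.set (IntAt.natCast hL.set _) hI) E)) (IntAt.sum hL.set _ fun u _ => ?_)
  exact IntAt.of_isIntegral hL.set ((hρi u).mul ((lv_int l _).sub (lv_int l' _)))

end Pool.Agent.FI3
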