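import Pool.Agent.helper40.FI3.SpecLA3

set_option autoImplicit false

namespace Pool.Agent.FI3

open Pool.Agent.FI Pool.Agent.GR

open Pool.Agent.GR
open Finset

theorem LIN3 (hLRA3 : LRA3_stmt) (hLIA3 : LIA3_stmt) : LIN3_stmt := by
  intro p M D _ _ X _ Z Y I β d n δ ε hLD hS χ l l' hll
  have hset := hLD.set
  have hpr := hset.pr
  have : Fact p.Prime := ⟨hpr⟩
  obtain ⟨k, hk⟩ := hLD.pg.exists_card_eq
  obtain ⟨q, hq⟩ := hLRA3 p M D X Z Y I β d n δ ε hLD hS χ l l'
  have hia := hLIA3 p M D X Z Y I β d n δ ε hLD hS χ l l' hll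
  have hint : IsIntegral ℤ (∑ u, lg Y ε d χ u * (lv l u⁻¹ - lv l' u⁻¹)) := by
    refine IsIntegral.sum _ fun u _ => ?_
    refine IsIntegral.mul ?_ ((lv_int l _).sub (lv_int l' _))
    by_cases hu : u ∈ Y
    · rw [lg_of_mem hu]
      exact isIntegral_zero
    · rw [lg_of_not_mem hu]
      refine IsIntegral.mul ?_ (hLD.h7 χ u hu)
      have := isIntegral_algebraMap (R := ℤ) (A := ℂ) (x := ε u)
      simpa using this
  rw [hq] at hint hia ⊢
  have hint2 : IsIntegral ℤ q := by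
    have h1 : IsIntegral ℤ (algebraMap ℚ ℂ q) := by simpa using hint
    exact (isIntegral_algebraMap_iff (algebraMap ℚ ℂ).injective).1 h1
  obtain ⟨N, hN⟩ := IsIntegrallyClosed.isIntegral_iff.1 hint2
  have hN' : (q : ℂ) = (N : ℂ) := by
    rw [← hN]
    simp
  rw [hN'] at hia ⊢
  rw [hk] at hia ⊢
  have hp0 : (p : ℂ) ≠ 0 := hset.p_ne
  have key : ∀ j, j ≤ k → ∃ N' : ℤ, N = (p : ℤ) ^ j * N' := by
    intro j
    induction j with
    | zero => exact fun _ => ⟨N, by simp⟩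
    | succ j ih =>
      intro hj
      obtain ⟨N', hN2⟩ := ih (by omega)
      have h1 : InM M (N' : ℂ) := by
        have h2 : (N' : ℂ) = ((N : ℂ) / ((p ^ k : ℕ) : ℂ)) * ((p : ℂ) ^ (k - j - 1) * (p : ℂ)) := by
          rw [hN2]
          push_cast
          have h3 : (p : ℂ) ^ k = (p : ℂ) ^ j * ((p : ℂ) ^ (k - j - 1) * (p : ℂ)) := by
            rw [← pow_succ, ← pow_add]
            exact congrArg (fun t => (p : ℂ) ^ t) (by omega)
          rw [h3]
          have h4 : (p : ℂ) ^ j ≠ 0 := pow_ne_zero _ hp0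
          have h5 : (p : ℂ) ^ (k - j - 1) ≠ 0 := pow_ne_zero _ hp0
          field_simp
        rw [h2]
        exact InM.mul_left hset hia (InM.mul_left hset (IntAt.pow hset (IntAt.natCast hset p) _) (InM.prime_mem hset))
      obtain ⟨N3, hN3⟩ := (InM.intCast hset N').1 h1
      exact ⟨N3, by rw [hN2, hN3, pow_succ]; ring⟩
  obtain ⟨a, ha⟩ := key k le_rfl
  exact ⟨a, by rw [ha]; push_cast; ring⟩

end Pool.Agent.FI3
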