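import Pool.Agent.helper40.FI3.SpecLA3

/-! # Project fi (MP_baa4d7_al), row LNU: `|I| n(u)²` is the restriction of an integer combination of characters -/

set_option autoImplicit false

namespace Pool.Agent.FI3

open Pool.Agent.FI Pool.Agent.GR

open Finset Pool.Agent.GR

noncomputable section

theorem LNU3 (hLCG : LCG_stmt) (hLCO : LCO_stmt) : LNU3_stmt := by
  intro p M D _ _ X _ Z Y I β d n h
  classical
  obtain ⟨hconst, -, -, -, -, hmul, hconj, -, hsum⟩ := hLCG D
  have hc : ∀ χ, ∃ m : ℤ, ∑ u, β χ u = (Nat.card D : ℂ) * m := fun χ => by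
    obtain ⟨m, hm⟩ := (hLCO p M D (β χ) h.set h.pg (h.h1 χ)).1 1
    refine ⟨m, ?_⟩
    simpa only [lv_hone, mul_one] using hm
  choose c hc using hc
  have hD : (Nat.card D : ℂ) ≠ 0 := Nat.cast_ne_zero.2 Nat.card_pos.ne'
  have : Fintype I := Fintype.ofFinite _
  refine ⟨fun u => ∑ χ, (c χ : ℂ) * (starRingEnd ℂ) (β χ u), ?_, fun u hu => ?_⟩
  · exact hsum X (fun χ u => (c χ : ℂ) * (starRingEnd ℂ) (β χ u)) fun χ =>
      hmul _ _ (hconst (c χ)) (hconj _ (h.h1 χ))
  · have h1 : (Nat.card D : ℂ) * ∑ χ, (c χ : ℂ) * (starRingEnd ℂ) (β χ u)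
        = ∑ a, ∑ χ, β χ a * (starRingEnd ℂ) (β χ u) := by
      rw [Finset.sum_comm, Finset.mul_sum]
      refine Finset.sum_congr rfl fun χ _ => ?_
      rw [← Finset.sum_mul, hc χ]
      ring
    have hinj : Function.Injective (fun t : I => (t : MulAut D) u) := by
      intro t t' htt
      have h2 : ((t' : MulAut D)⁻¹ * (t : MulAut D)) u = u := by
        rw [MulAut.mul_apply]
        have h3 : (t : MulAut D) u = (t' : MulAut D) u := htt
        rw [h3, MulAut.inv_apply_self]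
      have h4 := h.fr _ (I.mul_mem (I.inv_mem t'.2) t.2) u hu h2
      exact Subtype.ext (inv_mul_eq_one.1 h4).symm
    have h2 : ∑ a, ∑ χ, β χ a * (starRingEnd ℂ) (β χ u)
        = ∑ t : I, ∑ χ, β χ ((t : MulAut D) u) * (starRingEnd ℂ) (β χ u) := by
      rw [← Finset.sum_image (s := Finset.univ) (g := fun t : I => (t : MulAut D) u)
        (f := fun a => ∑ χ, β χ a * (starRingEnd ℂ) (β χ u)) (fun t _ t' _ htt => hinj htt)]
      refine (Finset.sum_subset (Finset.subset_univ _) fun a _ ha => ?_).symm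
      refine h.h4a u a hu fun t ht hta => ha ?_
      exact Finset.mem_image.2 ⟨⟨t, ht⟩, Finset.mem_univ _, hta⟩
    have h3 : ∀ t : I, ∑ χ, β χ ((t : MulAut D) u) * (starRingEnd ℂ) (β χ u)
        = (n u : ℂ) ^ 2 * (Nat.card D : ℂ) := fun t => by
      rw [← h.h4b u hu, Finset.mul_sum]
      refine Finset.sum_congr rfl fun χ _ => ?_
      rw [h.h2 χ t t.2 u, h.h3a χ u hu, map_mul]
      simp only [map_intCast]
      ring
    have h4 : (Nat.card D : ℂ) * ∑ χ, (c χ : ℂ) * (starRingEnd ℂ) (β χ u)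
        = (Nat.card D : ℂ) * ((Nat.card I : ℂ) * (n u : ℂ) ^ 2) := by
      rw [h1, h2, Finset.sum_congr rfl fun t _ => h3 t, Finset.sum_const, Finset.card_univ,
        nsmul_eq_mul, Nat.card_eq_fintype_card (α := I)]
      ring
    exact mul_left_cancel₀ hD h4

end

end Pool.Agent.FI3
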