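import Pool.Agent.helper40.FI3.SpecLA3

set_option autoImplicit false

namespace Pool.Agent.FI3

open Pool.Agent.FI Pool.Agent.GR

open Finset

theorem LRA3 (hLCG : LCG_stmt) (hLRU : LRU_stmt) : LRA3_stmt := by
  intro p M D _ _ X _ Z Y I β d n δ ε hD hS χ l l'
  classical
  have hpf : Fact p.Prime := ⟨hD.set.pr⟩
  have hpp : p.Prime := hD.set.pr
  obtain ⟨k, hk⟩ := hD.pg.exists_card_eq
  have hk0 : k ≠ 0 := by
    intro h0
    rw [h0, pow_zero] at hk
    have h1 : Subsingleton D := (Nat.card_eq_one_iff_unique.1 hk).1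
    apply hD.ne
    ext u
    have h2 : u = 1 := Subsingleton.elim _ _
    simp [h2]
  have hft : Fintype (D →* ℂˣ) := Fintype.ofFinite _
  set U : Finset ℕ := (Finset.range (p ^ k)).filter (fun s => ¬ p ∣ s) with hU
  have h1U : 1 ∈ U := by
    rw [hU, Finset.mem_filter, Finset.mem_range]
    refine ⟨Nat.one_lt_pow hk0 hpp.one_lt, ?_⟩
    intro h
    exact hpp.one_lt.ne' (Nat.dvd_one.1 h)
  have hU0 : (U.card : ℂ) ≠ 0 := by
    have : 0 < U.card := Finset.card_pos.2 ⟨1, h1U⟩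
    exact_mod_cast this.ne'
  -- the function `P`
  obtain ⟨-, -, hc3, -, hc5, hc6, -⟩ := hLCG D
  obtain ⟨P, hPd⟩ : ∃ P : D → ℂ, P = fun u => β χ u * (lv l u⁻¹ - lv l' u⁻¹) := ⟨_, rfl⟩
  have hP : LGC P := by
    rw [hPd]
    exact hc6 (β χ) (fun u => lv l u⁻¹ - lv l' u⁻¹) (hD.h1 χ) (hc5 _ _ (hc3 l) (hc3 l'))
  obtain ⟨m, hm⟩ := hP
  have hm' : ∀ u, P u = ∑ j : D →* ℂˣ, (m j : ℂ) * lv j u := by
    intro u
    rw [hm u, finsum_eq_sum_of_fintype]
  have hin : ∀ u, ∃ z : ℤ, ∑ s ∈ U, P (u ^ s) = (z : ℂ) := by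
    intro u
    choose r hr using fun j : D →* ℂˣ => hLRU p k (lv j u) hpp (by rw [← hk]; exact lv_pow_card j u)
    refine ⟨∑ j, m j * r j, ?_⟩
    simp only [hm']
    rw [Finset.sum_comm]
    push_cast
    refine Finset.sum_congr rfl fun j _ => ?_
    rw [← hr j, Finset.mul_sum]
    refine Finset.sum_congr rfl fun s _ => ?_
    rw [lv_pow]
  choose z hz using hin
  -- the sum
  obtain ⟨F, hF⟩ : ∃ F : D → ℂ, F = fun u => if u ∈ Y then 0 else ((ε u : ℂ) / (n u : ℂ)) * P u := ⟨_, rfl⟩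
  have hn0 : ∀ u, u ∉ Y → (n u : ℂ) ≠ 0 := by
    intro u hu h0
    apply hD.h3b u hu
    have : n u = 0 := by exact_mod_cast h0
    rw [this]
    exact dvd_zero _
  have hsum : ∑ u, lg Y ε d χ u * (lv l u⁻¹ - lv l' u⁻¹) = ∑ u, F u := by
    refine Finset.sum_congr rfl fun u _ => ?_
    rw [hF]
    by_cases hu : u ∈ Y
    · rw [lg_of_mem hu, zero_mul]
      simp [hu]
    · rw [lg_of_not_mem hu]
      simp only [hu, if_false]
      rw [hPd]
      simp only
      rw [hD.h3a χ u hu]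
      have := hn0 u hu
      field_simp
  have hperm : ∀ s ∈ U, ∑ u, F u = ∑ u, if u ∈ Y then 0 else ((ε u : ℂ) / (n u : ℂ)) * P (u ^ s) := by
    intro s hs
    rw [hU, Finset.mem_filter] at hs
    have hcop : (Nat.card D).Coprime s := by
      rw [hk]
      exact Nat.Coprime.pow_left k ((Nat.Prime.coprime_iff_not_dvd hpp).2 hs.2)
    rw [← Equiv.sum_comp (powCoprime hcop) F]
    refine Finset.sum_congr rfl fun u _ => ?_
    have e1 : powCoprime hcop u = u ^ s := rfl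
    rw [e1, hF]
    simp only
    have hmem : u ^ s ∈ Y ↔ u ∈ Y := by
      constructor
      · intro h
        have hco : s.Coprime (orderOf u) :=
          (Nat.Coprime.coprime_dvd_left (orderOf_dvd_natCard u) hcop).symm
        obtain ⟨t, ht⟩ := exists_pow_eq_self_of_coprime hco
        rw [← ht]
        exact Y.pow_mem h t
      · intro h
        exact Y.pow_mem h s
    by_cases hu : u ∈ Y
    · rw [if_pos (hmem.2 hu), if_pos hu]
    · rw [if_neg (fun h => hu (hmem.1 h)), if_neg hu, hS.po s hs.2 u hu, hD.h3d s hs.2 u hu]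
  have htot : (U.card : ℂ) * ∑ u, F u =
      ∑ u, if u ∈ Y then 0 else ((ε u : ℂ) / (n u : ℂ)) * (z u : ℂ) := by
    calc (U.card : ℂ) * ∑ u, F u = ∑ s ∈ U, ∑ u, F u := by rw [Finset.sum_const, nsmul_eq_mul]
      _ = ∑ s ∈ U, ∑ u, if u ∈ Y then 0 else ((ε u : ℂ) / (n u : ℂ)) * P (u ^ s) :=
        Finset.sum_congr rfl fun s hs => hperm s hs
      _ = ∑ u, ∑ s ∈ U, if u ∈ Y then 0 else ((ε u : ℂ) / (n u : ℂ)) * P (u ^ s) := Finset.sum_comm
      _ = ∑ u, if u ∈ Y then 0 else ((ε u : ℂ) / (n u : ℂ)) * (z u : ℂ) := by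
        refine Finset.sum_congr rfl fun u _ => ?_
        by_cases hu : u ∈ Y
        · simp [hu]
        · simp only [hu, if_false]
          rw [← hz u, Finset.mul_sum]
  refine ⟨(∑ u, if u ∈ Y then (0 : ℚ) else ((ε u : ℚ) / (n u : ℚ)) * (z u : ℚ)) / (U.card : ℚ), ?_⟩
  rw [hsum]
  have hcast : (((∑ u, if u ∈ Y then (0 : ℚ) else ((ε u : ℚ) / (n u : ℚ)) * (z u : ℚ)) / (U.card : ℚ) : ℚ) : ℂ) =
      (∑ u, if u ∈ Y then 0 else ((ε u : ℂ) / (n u : ℂ)) * (z u : ℂ)) / (U.card : ℂ) := by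
    rw [Rat.cast_div, Rat.cast_sum, Rat.cast_natCast]
    congr 1
    refine Finset.sum_congr rfl fun u _ => ?_
    by_cases hu : u ∈ Y
    · simp [hu]
    · simp only [hu, if_false]
      push_cast
      rfl
  rw [hcast, ← htot, mul_div_cancel_left₀ _ hU0]

end Pool.Agent.FI3
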