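import Pool.Agent.helper40.FI3.LNU3
import Pool.Agent.helper40.FI3.LEP3
import Pool.Agent.helper40.FI3.LSM3
import Pool.Agent.helper40.FI3.LIA3
import Pool.Agent.helper40.FI3.LRA3
import Pool.Agent.helper40.FI3.LIN3
import Pool.Agent.helper40.FI3.LGG3
import Pool.Agent.helper40.FI3.LFR3
import Pool.Agent.helper40.FI3.LGK3
import Pool.Agent.helper40.FI3.LGM3
import Pool.Agent.helper40.FI3.LPC3
import Pool.Agent.helper40.FI3.LTO3

/-!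
# Project fi3 (MP_baa4d7_al), block LA3: assembly of the ported rows
-/

set_option autoImplicit false

namespace Pool.Agent.FI3

open Pool.Agent.FI

theorem aLA_LNU3 : LNU3_stmt := LNU3 aLA_LCG aLA_LCO
theorem aLA_LEP3 : LEP3_stmt := LEP3 aLA_LNU3 aLA_LCO
theorem aLA_LSM3 : LSM3_stmt := LSM3 aLA_LCG aLA_LNU3 aLA_LIV
theorem aLA_LIA3 : LIA3_stmt := LIA3 aLA_LSM3 aLA_LCO
theorem aLA_LRA3 : LRA3_stmt := LRA3 aLA_LCG aLA_LRU
theorem aLA_LIN3 : LIN3_stmt := LIN3 aLA_LRA3 aLA_LIA3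
theorem aLA_LGG3 : LGG3_stmt := LGG3 aLA_LIN3
theorem aLA_LFR3 : LFR3_stmt := LFR3
theorem aLA_LGK3 : LGK3_stmt := LGK3
theorem aLA_LGM3 : LGM3_stmt := LGM3 aLA_LGK3
theorem aLA_LPC3 : LPC3_stmt := LPC3 aLA_LQ0 aLA_LFR3
theorem aLA_LTO3 : LTO3_stmt := LTO3 aLA_LGM3 aLA_LFR3

end Pool.Agent.FI3
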