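import Pool.Agent.helper12.FI3.DefsLA
import Pool.Agent.helper40.FI.AllLA

/-!
# Project fi3 (MP_baa4d7_al), block LA3: a counting argument on a finite abelian group with a semi-free action

Page: /team-store/FI3_helper12.md, BLOCK LA3. Basic facts on `lv`, `tw`, `ov` (all proved): `helper40/FI/Basic.lean`; `lg`, `lX`, `LAi`, `LFx`:
`helper40/FI/SpecLA.lean`. The rows of block LA of project fi may be cited (`Pool.Agent.FI.aLA_LCG : LCG_stmt`, `aLA_LCO`, `aLA_LIV`, `aLA_LRU`, `aLA_LQ0`).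
In this block `Z ≤ Y < D`; `g χ` is `0` on `Y`.
-/

set_option autoImplicit false

namespace Pool.Agent.FI3

open Pool.Agent.GR Pool.Agent.FI

noncomputable section

/-! ### Definitions -/

/-- the data `LAD3`, `D` a `CommGroup`, with `Finset` sums -/
structure LD3 (p : ℕ) (M : Ideal (integralClosure ℤ ℂ)) {D : Type} [CommGroup D] {X : Type} [Fintype X]
    (Z Y : Subgroup D) (I : Subgroup (MulAut D)) (β d : X → D → ℂ) (n : D → ℤ) : Prop where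
  set : Setup p M
  odd : p ≠ 2
  pg : IsPGroup p D
  zy : Z ≤ Y
  ne : Y ≠ ⊤
  cop : ¬ p ∣ Nat.card I
  fz : ∀ t ∈ I, ∀ z ∈ Y, t z = z
  fr : ∀ t ∈ I, ∀ u, u ∉ Y → t u = u → t = 1
  h1 : ∀ χ, LGC (β χ)
  h2 : ∀ χ, ∀ t ∈ I, ∀ u, β χ (t u) = β χ u
  h3a : ∀ χ u, u ∉ Y → β χ u = (n u : ℂ) * d χ u
  h3b : ∀ u, u ∉ Y → ¬ (p : ℤ) ∣ n u
  h3c : ∀ t ∈ I, ∀ u, u ∉ Y → n (t u) = n u
  h3d : ∀ s : ℕ, ¬ p ∣ s → ∀ u, u ∉ Y → n (u ^ s) = n u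
  h4a : ∀ u a, u ∉ Y → (∀ t ∈ I, t u ≠ a) → ∑ χ, β χ a * (starRingEnd ℂ) (β χ u) = 0
  h4b : ∀ u, u ∉ Y → ∑ χ, d χ u * (starRingEnd ℂ) (d χ u) = (Nat.card D : ℂ)
  h5 : ∀ χ, ∃ v : Z →* ℂˣ, ∀ (z : Z) (u : D), β χ (z * u) = lv v z * β χ u
  h6 : ∀ χ, ∃ u, u ∉ Y ∧ d χ u ≠ 0
  h7 : ∀ χ u, u ∉ Y → IsIntegral ℤ (d χ u)

/-- the signs -/
structure LSg3 (p : ℕ) {D : Type} [CommGroup D] (Z Y : Subgroup D) (I : Subgroup (MulAut D)) (n : D → ℤ)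
    (δ : ℤ) (ε : D → ℤ) : Prop where
  pd : ¬ (p : ℤ) ∣ δ
  pm : ∀ u, ε u = 1 ∨ ε u = -1
  cg : ∀ u, u ∉ Y → (p : ℤ) ∣ ε u * n u - δ
  ti : ∀ t ∈ I, ∀ u, u ∉ Y → ε (t u) = ε u
  po : ∀ s : ℕ, ¬ p ∣ s → ∀ u, u ∉ Y → ε (u ^ s) = ε u
  zi : ∀ z ∈ Z, ∀ u, u ∉ Y → ε (z * u) * n (z * u) = ε u * n u

/-- the properties of `g = lg Y ε d` which are used in the second half of the block -/
structure LG3 (p : ℕ) {D : Type} [CommGroup D] [Fintype D] {X : Type} [Fintype X]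
    (Z Y : Subgroup D) (I : Subgroup (MulAut D)) (g : X → D → ℂ) : Prop where
  pr : p.Prime
  pg : IsPGroup p D
  zy : Z ≤ Y
  ne : Y ≠ ⊤
  cop : ¬ p ∣ Nat.card I
  fz : ∀ t ∈ I, ∀ z ∈ Y, t z = z
  fr : ∀ t ∈ I, ∀ u, u ∉ Y → t u = u → t = 1
  g0 : ∀ χ, ∀ z ∈ Y, g χ z = 0
  gt : ∀ χ, ∀ t ∈ I, ∀ u, g χ (t u) = g χ u
  gz : ∀ χ, ∃ l₀ : D →* ℂˣ, ∀ z ∈ Z, ∀ u, g χ (z * u) = lv l₀ z * g χ u
  o0 : ∀ u a, u ∉ Y → (∀ t ∈ I, t u ≠ a) → ∑ χ, g χ a * (starRingEnd ℂ) (g χ u) = 0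
  o1 : ∀ u, u ∉ Y → ∀ t ∈ I, ∑ χ, g χ (t u) * (starRingEnd ℂ) (g χ u) = (Nat.card D : ℂ)
  gi : ∀ χ (l l' : D →* ℂˣ), (∀ z ∈ Y, lv l z = lv l' z) →
    ∃ a : ℤ, ∑ u, g χ u * (lv l u⁻¹ - lv l' u⁻¹) = (Nat.card D : ℂ) * a
  gn : ∀ χ, ∃ u, u ∉ Y ∧ g χ u ≠ 0

/-- `N` is a set of characters fixed by `I` which represents the characters of `Y` equal to `l₀` on `Z` -/
structure LRS {D : Type} [CommGroup D] [Fintype (D →* ℂˣ)] (Z Y : Subgroup D) (I : Subgroup (MulAut D))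
    (l₀ : D →* ℂˣ) (N : Finset (D →* ℂˣ)) : Prop where
  fx : ∀ m ∈ N, LFx I m
  oz : ∀ m ∈ N, m ∈ ov Z l₀
  cov : ∀ l ∈ ov Z l₀, ∃ m ∈ N, l ∈ ov Y m
  dis : ∀ m ∈ N, ∀ m' ∈ N, (∀ y ∈ Y, lv m y = lv m' y) → m = m'
  crd : N.card = Z.relIndex Y

open Classical in
/-- the `χ ∈ S` such that not all `A χ l`, `l` over the restriction of `m` to `Y`, are `0` -/
def lK {D X : Type} [CommGroup D] [Fintype (D →* ℂˣ)] (Y : Subgroup D) (m : D →* ℂˣ)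
    (A : X → (D →* ℂˣ) → ℤ) (S : Finset X) : Finset X :=
  S.filter fun χ => ∃ l ∈ ov Y m, A χ l ≠ 0

theorem mem_lK {D X : Type} [CommGroup D] [Fintype (D →* ℂˣ)] {Y : Subgroup D} {m : D →* ℂˣ}
    {A : X → (D →* ℂˣ) → ℤ} {S : Finset X} {χ : X} : χ ∈ lK Y m A S ↔ χ ∈ S ∧ ∃ l ∈ ov Y m, A χ l ≠ 0 := by
  simp [lK]

theorem lX_congr {D X : Type} [CommGroup D] [Finite D] [Fintype (D →* ℂˣ)] [Fintype X] {Z : Subgroup D} {l₀ m : D →* ℂˣ}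
    {g : X → D → ℂ} (h : m ∈ ov Z l₀) : lX Z m g = lX Z l₀ g := by
  ext χ
  rw [mem_lX, mem_lX]
  rw [mem_ov] at h
  exact ⟨fun h1 z hz u => by rw [h1 z hz u, h z hz], fun h1 z hz u => by rw [h1 z hz u, h z hz]⟩

/-! ### Part 1: rationality and integrality (ports of block LA by script, helper40) -/

/-- ROW LNU3. -/
def LNU3_stmt : Prop := ∀ (p : ℕ) (M : Ideal (integralClosure ℤ ℂ)) (D : Type) [CommGroup D] [Fintype D]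
  (X : Type) [Fintype X] (Z Y : Subgroup D) (I : Subgroup (MulAut D)) (β d : X → D → ℂ) (n : D → ℤ),
  LD3 p M Z Y I β d n →
  ∃ κ : D → ℂ, LGC κ ∧ ∀ u, u ∉ Y → κ u = (Nat.card I : ℂ) * (n u : ℂ) ^ 2

/-- ROW LEP3. -/
def LEP3_stmt : Prop := ∀ (p : ℕ) (M : Ideal (integralClosure ℤ ℂ)) (D : Type) [CommGroup D] [Fintype D]
  (X : Type) [Fintype X] (Z Y : Subgroup D) (I : Subgroup (MulAut D)) (β d : X → D → ℂ) (n : D → ℤ),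
  LD3 p M Z Y I β d n → ∃ (δ : ℤ) (ε : D → ℤ), LSg3 p Z Y I n δ ε

/-- ROW LSM3. -/
def LSM3_stmt : Prop := ∀ (p : ℕ) (M : Ideal (integralClosure ℤ ℂ)) (D : Type) [CommGroup D] [Fintype D]
  (X : Type) [Fintype X] (Z Y : Subgroup D) (I : Subgroup (MulAut D)) (β d : X → D → ℂ) (n : D → ℤ)
  (δ : ℤ) (ε : D → ℤ), LD3 p M Z Y I β d n → LSg3 p Z Y I n δ ε →
  ∀ χ, ∃ (F : D → ℂ) (E : ℕ), LGC F ∧
    ∀ u, u ∉ Y → IsIntegral ℤ ((lg Y ε d χ u - F u / (Nat.card I : ℂ) ^ E) / (Nat.card D : ℂ))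

/-- ROW LIA3. -/
def LIA3_stmt : Prop := ∀ (p : ℕ) (M : Ideal (integralClosure ℤ ℂ)) (D : Type) [CommGroup D] [Fintype D]
  (X : Type) [Fintype X] (Z Y : Subgroup D) (I : Subgroup (MulAut D)) (β d : X → D → ℂ) (n : D → ℤ)
  (δ : ℤ) (ε : D → ℤ), LD3 p M Z Y I β d n → LSg3 p Z Y I n δ ε →
  ∀ χ (l l' : D →* ℂˣ), (∀ z ∈ Y, lv l z = lv l' z) →
    IntAt M ((∑ u, lg Y ε d χ u * (lv l u⁻¹ - lv l' u⁻¹)) / (Nat.card D : ℂ))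

/-- ROW LRA3. -/
def LRA3_stmt : Prop := ∀ (p : ℕ) (M : Ideal (integralClosure ℤ ℂ)) (D : Type) [CommGroup D] [Fintype D]
  (X : Type) [Fintype X] (Z Y : Subgroup D) (I : Subgroup (MulAut D)) (β d : X → D → ℂ) (n : D → ℤ)
  (δ : ℤ) (ε : D → ℤ), LD3 p M Z Y I β d n → LSg3 p Z Y I n δ ε →
  ∀ χ (l l' : D →* ℂˣ), ∃ q : ℚ, ∑ u, lg Y ε d χ u * (lv l u⁻¹ - lv l' u⁻¹) = (q : ℂ)

/-- ROW LIN3. -/
def LIN3_stmt : Prop := ∀ (p : ℕ) (M : Ideal (integralClosure ℤ ℂ)) (D : Type) [CommGroup D] [Fintype D]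
  (X : Type) [Fintype X] (Z Y : Subgroup D) (I : Subgroup (MulAut D)) (β d : X → D → ℂ) (n : D → ℤ)
  (δ : ℤ) (ε : D → ℤ), LD3 p M Z Y I β d n → LSg3 p Z Y I n δ ε →
  ∀ χ (l l' : D →* ℂˣ), (∀ z ∈ Y, lv l z = lv l' z) →
    ∃ a : ℤ, ∑ u, lg Y ε d χ u * (lv l u⁻¹ - lv l' u⁻¹) = (Nat.card D : ℂ) * a

/-- ROW LGG3. -/
def LGG3_stmt : Prop := ∀ (p : ℕ) (M : Ideal (integralClosure ℤ ℂ)) (D : Type) [CommGroup D] [Fintype D]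
  (X : Type) [Fintype X] (Z Y : Subgroup D) (I : Subgroup (MulAut D)) (β d : X → D → ℂ) (n : D → ℤ)
  (δ : ℤ) (ε : D → ℤ), LD3 p M Z Y I β d n → LSg3 p Z Y I n δ ε → LG3 p Z Y I (lg Y ε d)

/-! ### Part 2: counting -/

/-- ROW LFR3 (port). -/
def LFR3_stmt : Prop := ∀ (p : ℕ) (D : Type) [CommGroup D] [Fintype D] [Fintype (D →* ℂˣ)]
  (X : Type) [Fintype X] (Z Y : Subgroup D) (I : Subgroup (MulAut D)) (g : X → D → ℂ) (m l : D →* ℂˣ) (t : MulAut D),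
  LG3 p Z Y I g → LFx I m → l ∈ ov Y m → l ≠ m → t ∈ I → tw t l = l → t = 1

/-- ROW LGK3 (port). -/
def LGK3_stmt : Prop := ∀ (p : ℕ) (D : Type) [CommGroup D] [Fintype D] [Fintype (D →* ℂˣ)]
  (X : Type) [Fintype X] (Z Y : Subgroup D) [Fintype Z] (I : Subgroup (MulAut D)) [Fintype I] (g : X → D → ℂ) (l₀ : D →* ℂˣ),
  LG3 p Z Y I g → ∀ u, u ∉ Y → ∀ F : D → ℂ,
    ∑ a, F a * ∑ χ ∈ lX Z l₀ g, g χ a * (starRingEnd ℂ) (g χ u) =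
      (Nat.card D : ℂ) / (Nat.card Z : ℂ) * ∑ z : Z, ∑ t : I, lv l₀ (z : D)⁻¹ * F ((z : D)⁻¹ * (t : MulAut D) u)

/-- ROW LGM3 (port). -/
def LGM3_stmt : Prop := ∀ (p : ℕ) (D : Type) [CommGroup D] [Fintype D] [Fintype (D →* ℂˣ)]
  (X : Type) [Fintype X] (Z Y : Subgroup D) (I : Subgroup (MulAut D)) (g : X → D → ℂ) (m : D →* ℂˣ)
  (A : X → (D →* ℂˣ) → ℤ), LG3 p Z Y I g → LFx I m → LAi Y m g A →
  ∀ l ∈ ov Y m, ∀ l' ∈ ov Y m, l ≠ m → l' ≠ m →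
    ∑ χ ∈ lX Z m g, A χ l * A χ l' = (Nat.card {t : I // tw (t : MulAut D) l = l'} : ℤ) + Nat.card I

/-- ROW LPC3 (port). -/
def LPC3_stmt : Prop := ∀ (p : ℕ) (D : Type) [CommGroup D] [Fintype D] [Fintype (D →* ℂˣ)]
  (X : Type) [Fintype X] (Z Y : Subgroup D) (I : Subgroup (MulAut D)) (g : X → D → ℂ) (m : D →* ℂˣ)
  (A : X → (D →* ℂˣ) → ℤ), LG3 p Z Y I g → LFx I m → LAi Y m g A →
  ∀ χ, (∃ l ∈ ov Y m, A χ l ≠ 0) →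
    (((Y.index : ℤ) - 1) * Nat.card I ≤
      ((Y.index : ℤ) - 1 + Nat.card I) * ∑ l ∈ ov Y m, A χ l ^ 2 - (∑ l ∈ ov Y m, A χ l) ^ 2) ∧
    (((Y.index : ℤ) - 1 + Nat.card I) * ∑ l ∈ ov Y m, A χ l ^ 2 - (∑ l ∈ ov Y m, A χ l) ^ 2 =
      ((Y.index : ℤ) - 1) * Nat.card I →
      ∃ e : ℤ, (e = 1 ∨ e = -1) ∧ ((∀ l ∈ ov Y m, l ≠ m → A χ l = e) ∨
        ∃ l₁ ∈ ov Y m, l₁ ≠ m ∧ (∀ t ∈ I, A χ (tw t l₁) = e) ∧
          ∀ l ∈ ov Y m, (∀ t ∈ I, tw t l₁ ≠ l) → A χ l = 0))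

/-- ROW LTO3 (port). -/
def LTO3_stmt : Prop := ∀ (p : ℕ) (D : Type) [CommGroup D] [Fintype D] [Fintype (D →* ℂˣ)]
  (X : Type) [Fintype X] (Z Y : Subgroup D) (I : Subgroup (MulAut D)) (g : X → D → ℂ) (m : D →* ℂˣ)
  (A : X → (D →* ℂˣ) → ℤ), LG3 p Z Y I g → LFx I m → LAi Y m g A →
  ∑ χ ∈ lX Z m g, (((Y.index : ℤ) - 1 + Nat.card I) * ∑ l ∈ ov Y m, A χ l ^ 2 - (∑ l ∈ ov Y m, A χ l) ^ 2) =
    ((Y.index : ℤ) - 1) * (((Y.index : ℤ) - 1) + (Nat.card I : ℤ) ^ 2)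

/-- ROW LFE3 (short). Every character of `Y` has an extension fixed by `I`.
PROOF. `|D| = p ^ k` (`IsPGroup.exists_card_eq`, `Fact p.Prime`), so `Nat.card I` and `Nat.card D` are coprime; choose `e` with `Nat.card I * e ≡ 1 [MOD Nat.card D]` (`Nat.exists_mul_emod_eq_one_of_coprime`, if `1 < Nat.card D`; if `Nat.card D = 1` take `m = l`). Put `m = (∏ t : I, tw t l) ^ e`.
`LFx`: for `s ∈ I`: `∏ t, lv l (t (s u)) = ∏ t, lv l (t u)` (replace `t` by `t * s⁻¹`: `Equiv.mulRight`, `Fintype.prod_equiv`). On `Y`: `lv l (t y) = lv l y`, so `lv m y = (lv l y) ^ (Nat.card I * e) = lv l y` because `(lv l y) ^ Nat.card D = 1` (`lv_pow_card`, `pow_eq_pow_mod`). -/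
def LFE3_stmt : Prop := ∀ (p : ℕ) (D : Type) [CommGroup D] [Fintype D] (Y : Subgroup D) (I : Subgroup (MulAut D))
  (l : D →* ℂˣ), p.Prime → IsPGroup p D → ¬ p ∣ Nat.card I → (∀ t ∈ I, ∀ z ∈ Y, t z = z) →
  ∃ m : D →* ℂˣ, LFx I m ∧ ∀ y ∈ Y, lv m y = lv l y

/-- ROW LRP3 (short to medium; from LFE3). Representatives exist.
PROOF. Let `V` be the image of `ov Z l₀` under the restriction `l ↦ l.comp Y.subtype` to `Y`. For `v ∈ V` choose `l_v ∈ ov Z l₀` with restriction `v` and (LFE3) `R v` fixed by `I` with the same values as `l_v` on `Y`; the restriction of `R v` is `v`, so `R` is injective on `V`. `N = V.image R`. `fx`: clear. `oz`: on `Z ≤ Y`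
`R v = l_v = l₀`. `cov`: for `l ∈ ov Z l₀` take `v` = its restriction. `dis`: `R v`, `R v'` with the same restriction: `v = v'`. `crd`: `N.card = V.card`; `(ov Z l₀).card = ∑ v ∈ V, (the fibre)` (`Finset.card_eq_sum_card_image`); the fibre over `v` is `ov Y (R v)` (if `l = R v` on `Y` then `l ∈ ov Z l₀` since `Z ≤ Y`), which has
`Y.index` elements (`card_ov`); so `Z.index = V.card * Y.index` and `Z.relIndex Y * Y.index = Z.index` (`Subgroup.relIndex_mul_index`); cancel `Y.index ≠ 0`. -/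
def LRP3_stmt : Prop := ∀ (p : ℕ) (D : Type) [CommGroup D] [Fintype D] [Fintype (D →* ℂˣ)]
  (X : Type) [Fintype X] (Z Y : Subgroup D) (I : Subgroup (MulAut D)) (g : X → D → ℂ) (l₀ : D →* ℂˣ),
  LG3 p Z Y I g → ∃ N : Finset (D →* ℂˣ), LRS Z Y I l₀ N

/-- ROW LFI3 (short; model: `Pool/Agent/helper40/FI/LFI.lean`). Fourier inversion.
PROOF. `c l = (∑ u, g χ u * lv l u⁻¹) / |D|`. By `sum_hlv_lv` `g χ u = ∑ l, c l * lv l u`. If `l ∉ ov Z l₀` then `c l = 0` (substitute `u ↦ z * u`, `mem_lX`). `ov Z l₀` is the disjoint union of the `ov Y m`, `m ∈ N` (`cov`, `dis`; `ov Y m ⊆ ov Z l₀` by `oz`, `Z ≤ Y`; `Finset.sum_biUnion`). For `l ∈ ov Y m`: `c l = c m + A χ l` (`LAi`), and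
`∑ l ∈ ov Y m, lv l u = 0` for `u ∉ Y` (`sum_ov`). -/
def LFI3_stmt : Prop := ∀ (D : Type) [CommGroup D] [Fintype D] [Fintype (D →* ℂˣ)]
  (X : Type) [Fintype X] (Z Y : Subgroup D) (I : Subgroup (MulAut D)) (g : X → D → ℂ) (l₀ : D →* ℂˣ)
  (N : Finset (D →* ℂˣ)) (A : X → (D →* ℂˣ) → ℤ), Z ≤ Y → LRS Z Y I l₀ N → (∀ m ∈ N, LAi Y m g A) →
  ∀ χ ∈ lX Z l₀ g, ∀ u, u ∉ Y → g χ u = ∑ m ∈ N, ∑ l ∈ ov Y m, (A χ l : ℂ) * lv l u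

/-- ROW LKM3 (short to medium; from LPC3, LTO3). The `χ` attached to `m`.
PROOF. `q = Y.index - 1 > 0` (`Y ≠ ⊤`: `Subgroup.index_eq_one`), `Q χ` = the expression of LPC3. If `χ ∉ lK` then all `A χ l`, `l ∈ ov Y m`, are `0` and `Q χ = 0`. So by LTO3 `q * (q + |I|²) = ∑ χ ∈ lK Y m A (lX Z m g), Q χ ≥ |lK| * q * |I|` (LPC3, first part); cancel `q`. If equality holds then all the inequalities
are equalities (`Finset.sum_eq_sum_iff_of_le`), and the second part of LPC3 applies. -/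
def LKM3_stmt : Prop := ∀ (p : ℕ) (D : Type) [CommGroup D] [Fintype D] [Fintype (D →* ℂˣ)]
  (X : Type) [Fintype X] (Z Y : Subgroup D) (I : Subgroup (MulAut D)) (g : X → D → ℂ) (m : D →* ℂˣ)
  (A : X → (D →* ℂˣ) → ℤ), LG3 p Z Y I g → LFx I m → LAi Y m g A →
  Nat.card I * (lK Y m A (lX Z m g)).card ≤ (Y.index - 1) + Nat.card I ^ 2 ∧
  (Nat.card I * (lK Y m A (lX Z m g)).card = (Y.index - 1) + Nat.card I ^ 2 → ∀ χ ∈ lK Y m A (lX Z m g),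
    ∃ e : ℤ, (e = 1 ∨ e = -1) ∧ ((∀ l ∈ ov Y m, l ≠ m → A χ l = e) ∨
        ∃ l₁ ∈ ov Y m, l₁ ≠ m ∧ (∀ t ∈ I, A χ (tw t l₁) = e) ∧
          ∀ l ∈ ov Y m, (∀ t ∈ I, tw t l₁ ≠ l) → A χ l = 0))

/-- ROW LCA3 (short to medium; from LKM3, LRP3, LFI3).
PROOF. `N` from LRP3. `A`: for `l` choose `m ∈ N` with `l ∈ ov Y m` (unique by `dis`) and the integer of `gi`; `0` if there is none; so `LAi Y m g A` for all `m ∈ N`. Every `χ ∈ lX Z l₀ g` is in some `lK Y m A (lX Z l₀ g)`, `m ∈ N`: otherwise all `A χ l = 0` and `g χ = 0` outside `Y` by LFI3, against `gn`.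
So `(lX Z l₀ g).card ≤ ∑ m ∈ N, (lK Y m A (lX Z l₀ g)).card` (`Finset.card_biUnion_le`), `lX Z m g = lX Z l₀ g` (`lX_congr`), LKM3, `N.card = Z.relIndex Y`. -/
def LCA3_stmt : Prop := ∀ (p : ℕ) (D : Type) [CommGroup D] [Fintype D] [Fintype (D →* ℂˣ)]
  (X : Type) [Fintype X] (Z Y : Subgroup D) (I : Subgroup (MulAut D)) (g : X → D → ℂ) (l₀ : D →* ℂˣ),
  LG3 p Z Y I g → Nat.card I * (lX Z l₀ g).card ≤ Z.relIndex Y * ((Y.index - 1) + Nat.card I ^ 2)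

/-- ROW LCB3 (medium; from LKM3, LRP3, LFI3, LFR3; model: `Pool/Agent/helper79/FI/LC3.lean`).
PROOF. `N`, `A`, `K m = lK Y m A (lX Z l₀ g)` as in LCA3. `|I| * |lX| ≤ ∑ m ∈ N, |I| * |K m| ≤ N.card * ((Y.index - 1) + |I|²)` and the hypothesis: equality in LKM3 for every `m ∈ N` (`Finset.sum_eq_sum_iff_of_le`), and `|lX| = ∑ m ∈ N, |K m| = ∑ χ ∈ lX, #{m ∈ N | χ ∈ K m}` with all summands `≥ 1` (LFI3, `gn`), so for `χ ∈ lX` there is exactly one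
`m ∈ N` with `χ ∈ K m`. For `m' ∈ N`, `m' ≠ m` all `A χ l`, `l ∈ ov Y m'`, are `0`. LFI3: `g χ u = ∑ l ∈ ov Y m, A χ l * lv l u`. Case 1: `A χ l = e` for `l ≠ m` in `ov Y m`, `A χ m = 0` (`LAi` for `l = m`): by `sum_ov` `g χ u = - e * lv m u`; `lv m u - 1` is `InM` (`lv_modM`), so `g χ u` is not (`InM.not_one`).
Case 2: `g χ u = e * ∑ t : I, lv l₁ (t u)` (the characters `tw t l₁`, `t ∈ I`, are distinct by LFR3, the others have coefficient `0`); every `lv l₁ (t u) - 1` is `InM` (`lv_modM`), so if `g χ u` were `InM` then `p ∣ |I|` (`InM.intCast`), against `cop`. -/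
def LCB3_stmt : Prop := ∀ (p : ℕ) (M : Ideal (integralClosure ℤ ℂ)) (D : Type) [CommGroup D] [Fintype D] [Fintype (D →* ℂˣ)]
  (X : Type) [Fintype X] (Z Y : Subgroup D) (I : Subgroup (MulAut D)) (g : X → D → ℂ) (l₀ : D →* ℂˣ),
  Setup p M → LG3 p Z Y I g → Nat.card I * (lX Z l₀ g).card = Z.relIndex Y * ((Y.index - 1) + Nat.card I ^ 2) →
  ∀ χ ∈ lX Z l₀ g, ∀ u, u ∉ Y → ¬ InM M (g χ u)

/-! ROW LAF3 (short to medium; from LEP3, LGG3, LCA3, LCB3; model: `Pool/Agent/helper98/FI/LAF.lean`). The interface: `LAF3_stmt` of `helper12/FI3/DefsLA.lean`.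
PROOF. `letI : CommGroup D := { ‹Group D› with mul_comm := h.com }`, `Fintype.ofFinite` for `D`, `X`, `D →* ℂˣ` (`lch_finite`), `finsum_eq_sum_of_fintype`: the data give `LD3 p M Z Y I β d n`. LEP3: `δ`, `ε`; LGG3: `LG3 p Z Y I (lg Y ε d)`.
Let `X0 = {χ | ∀ z ∈ Z, ∀ u, β χ (z * u) = lv l₀ z * β χ u}`; `X0 ⊆ lX Z l₀ (lg Y ε d)`: for `u ∉ Y` also `z * u ∉ Y` and `lg Y ε d χ u = β χ u / (ε u * n u)`, `zi`; for `u ∈ Y` both sides are `0`. `c1`: LCA3 (`Set.ncard_le_ncard`, `Set.ncard_coe_finset`).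
`c3`: `|I| * |X0| = max ≥ |I| * |lX| ≥ |I| * |X0|`, so LCB3 applies; for `χ ∈ X0`, `u ∉ Y`: `lg Y ε d χ u = ε u * d χ u` is not `InM`, so `d χ u` is not. -/

end

end Pool.Agent.FI3
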